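import Mathlib
import Pool.Agent.Lib.helper1.Hom

set_option autoImplicit false
set_option maxRecDepth 100000
open Finset

namespace Pool.Agent.H.MP_051ecf_co.A
open Pool.Agent.Lib.helper1.Mask Pool.Agent.Lib.helper1.Hom

def fac : List ℕ :=
  [53, 86, 102, 105, 116, 149, 156, 165, 166, 216, 267, 270, 305, 329, 353, 368, 390, 396, 401,
  456, 464]

def fl : List (ℕ × ℕ × List ℕ) :=
  [(65, 296, [53, 86, 102, 116, 149, 156, 165, 166, 216, 267, 270, 297, 305, 360, 368, 390, 396,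
  401, 456, 464]), (192, 280, [53, 86, 102, 116, 149, 156, 165, 166, 267, 270, 297, 305, 344,
  360, 368, 390, 396, 401, 408]), (34, 192, [53, 86, 116, 149, 156, 165, 198, 228, 267, 270,
  297, 305, 344, 360, 368, 390, 396, 401, 408]), (32, 65, [85, 86, 149, 156, 197, 198, 267, 270,
  329, 337, 344, 390, 396, 401, 408]), (5, 208, [86, 156, 198, 209, 212, 267, 270, 329, 337,
  344, 390, 396, 401, 408]), (136, 276, [86, 198, 209, 212, 267, 270, 284, 329, 337, 344, 390,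
  401, 404]), (320, 25, [86, 89, 198, 209, 212, 267, 270, 281, 284, 390, 401, 404]), (128, 320,
  [86, 89, 267, 270, 281, 284, 326, 337, 340]), (68, 274, [89, 267, 270, 278, 281, 284, 337,
  338]), (4, 26, [89, 267, 281, 282, 337, 338]), (17, 328, [267, 282, 329, 338, 344]), (16, 74,
  [267, 329, 330]), (8, 67, [323])]

def t0 : T :=
  (.node 1 (.node 0 (.leaf 3) (.leaf 2)) (.node 2 (.node 6 (.leaf 4) (.node 5 (.leaf 0) (.leaf
  7))) (.node 3 (.leaf 6) (.node 6 (.leaf 8) (.leaf 0)))))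

def ts : Fin 9 → T :=
  ![(.node 1 (.leaf 3) (.node 3 (.leaf 6) (.node 6 (.leaf 5) (.node 8 (.leaf 4) (.leaf 2))))),
  (.node 0 (.leaf 3) (.leaf 2)), (.node 1 (.node 3 (.leaf 8) (.node 4 (.leaf 6) (.node 6 (.leaf
  5) (.leaf 7)))) (.node 6 (.leaf 4) (.node 5 (.leaf 0) (.leaf 7)))), (.node 1 (.leaf 8) (.node
  2 (.leaf 7) (.leaf 6))), (.node 1 (.leaf 2) (.node 3 (.leaf 7) (.node 2 (.node 6 (.leaf 5)
  (.leaf 0)) (.leaf 8)))), (.node 1 (.leaf 2) (.node 2 (.node 6 (.leaf 4) (.leaf 0)) (.node 4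
  (.leaf 8) (.leaf 0)))), (.node 1 (.leaf 2) (.node 2 (.leaf 4) (.node 3 (.node 4 (.leaf 7)
  (.node 5 (.leaf 0) (.leaf 8))) (.leaf 8)))), (.node 1 (.leaf 2) (.node 5 (.leaf 0) (.node 0
  (.leaf 4) (.node 2 (.leaf 3) (.leaf 6))))), (.node 1 (.node 0 (.leaf 3) (.leaf 2)) (.node 2
  (.leaf 3) (.node 3 (.leaf 6) (.node 7 (.leaf 4) (.leaf 5)))))]

theorem h1 : run 9 323 fac fl = true := by decide +kernel

theorem h2 : ok 9 t0 fac = true ∧ ∀ v : Fin 9, ok 9 (ts v) (lk v fac) = true := by decide +kernel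

theorem h3 : ∀ a b : Fin 9, a ≠ b → ∃ v, v ≠ a ∧ v ≠ b ∧ ¬ Cx 9 fac {v, a, b} := by
  unfold Cx
  decide +kernel

theorem h4 : (∀ m ∈ fac, (f 9 m).card = 4) ∧ (fac.map (f 9)).toFinset.card = 21 ∧
    ∀ v : Fin 9, Cx 9 fac {v} := by
  unfold Cx
  decide +kernel

theorem none (D : Finset (Finset (Fin 9) × Finset (Fin 9)))
    (a1 : ∀ p ∈ D, p.1 ⊆ p.2 ∧ p.2 ∈ cx 9 fac ∧ p.2.card = p.1.card + 2)
    (a2 : ∀ σ ∈ cx 9 fac, ∃! p, p ∈ D ∧ p.1 ⊆ σ ∧ σ ⊆ p.2)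
    (a3 : ∀ p ∈ D, ∀ τ ⊆ p.1, ∃ q ∈ D, q.1 = τ) : False := by
  simp only [mem_cx] at a1 a2
  have un : ∀ p ∈ D, ∀ q ∈ D, ∀ σ, p.1 ⊆ σ → σ ⊆ p.2 → q.1 ⊆ σ → σ ⊆ q.2 → p = q := by
    intro p x q y σ a b c d
    obtain ⟨m, e, g⟩ := (a1 p x).2.1
    exact (a2 σ ⟨m, e, b.trans g⟩).unique ⟨x, a, b⟩ ⟨y, c, d⟩
  obtain ⟨p0, ⟨x0, e0, -⟩, -⟩ := a2 ∅ ⟨53, by decide, empty_subset _⟩
  rw [subset_empty] at e0
  obtain ⟨a, b, ne, e⟩ := card_eq_two.1 (by simpa [e0] using (a1 p0 x0).2.2)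
  have nb : ∀ q ∈ D, q.1 ⊆ univ \ p0.2 := fun q x w y => mem_sdiff.2 ⟨mem_univ _, fun z => by
    obtain ⟨r, c, d⟩ := a3 q x {w} (by simpa using y)
    have := un r c p0 x0 {w} d.le (d ▸ (a1 r c).1) (by simp [e0]) (by simpa using z)
    simp [this, e0, eq_comm] at d⟩
  have c1 : 21 ≤ (D.filter fun p => p.1.card = 2).card := by
    rw [← h4.2.1]
    refine card_le_card_of_surjOn Prod.snd fun σ x => ?_
    obtain ⟨m, y, rfl⟩ := List.mem_map.1 (List.mem_toFinset.1 x)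
    obtain ⟨p, ⟨x, -, s⟩, -⟩ := a2 _ ⟨m, y, subset_rfl⟩
    obtain ⟨-, ⟨m', y', t⟩, u⟩ := a1 p x
    have := card_le_card t
    have := card_le_card s
    have := h4.1 m y
    have := h4.1 m' y'
    exact ⟨p, by simpa [x] using (by omega : p.1.card = 2),
      (eq_of_subset_of_card_le s (by omega)).symm⟩
  have c2 : (D.filter fun p => p.1.card = 2).image Prod.fst = powersetCard 2 (univ \ p0.2) := by
    refine eq_of_subset_of_card_le (fun σ x => ?_) ?_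
    · obtain ⟨p, y, rfl⟩ := mem_image.1 x
      exact mem_powersetCard.2 ⟨nb p (mem_filter.1 y).1, (mem_filter.1 y).2⟩
    · rw [card_image_of_injOn fun p x q y z => un p (mem_filter.1 x).1 q (mem_filter.1 y).1 _
        subset_rfl (a1 p (mem_filter.1 x).1).1 z.ge (z ▸ (a1 q (mem_filter.1 y).1).1),
        card_powersetCard, card_univ_sdiff, e, card_pair ne]
      exact c1
  obtain ⟨v, v1, v2, v3⟩ := h3 a b ne
  obtain ⟨p, ⟨x, s, t⟩, -⟩ := a2 _ (h4.2.2 v)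
  have e1 : p.1 = {v} := (subset_singleton_iff.1 s).resolve_left fun y => by
    have := un p x p0 x0 ∅ y.le (empty_subset _) e0.le (empty_subset _)
    simp [this, e, v1, v2] at t
  have e2 : p.2 ⊆ {v, a, b} := fun w y => by
    by_contra z
    simp only [mem_insert, mem_singleton, not_or] at z
    obtain ⟨q, c, d⟩ := mem_image.1 (c2.ge (mem_powersetCard.2 ⟨show {v, w} ⊆ univ \ p0.2 by
      simp [e, insert_subset_iff, v1, v2, z], card_pair (Ne.symm z.1)⟩))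
    have c := mem_filter.1 c
    have := un p x q c.1 {v, w} (by simp [e1]) (insert_subset (by simpa using t) (by simpa using y))
      d.le (d ▸ (a1 q c.1).1)
    simp [← this, e1] at c
  have := (a1 p x).2
  rw [eq_of_subset_of_card_le e2 (by rw [this.2, e1]; exact card_le_three)] at this
  exact v3 this.1

end Pool.Agent.H.MP_051ecf_co.A
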